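import Mathlib
import Pool.Agent.MP_fed7c7_lc.H93.Final

set_option autoImplicit false

/-!
The system in five unknowns again, with the shape of the intended solutions recorded.
-/

namespace Pool.Agent.MP_fed7c7_lc.H34

open Finset Pool.Agent.MP_fed7c7_lc.H56 Pool.Agent.MP_fed7c7_lc.H21 Pool.Agent.MP_fed7c7_lc.H93

/-- The shape of the intended solutions. -/
def Cp (p : MvPolynomial (Fin 3) ℤ) (d : ℕ) (κ u w a v h g l X : ℤ) : Prop :=
  aA a v = ch a X ∧ a ≤ aA a v ∧ 9 * κ * (u * h + w) ^ 2 + 3 + (aA a v - 1) * g = ps (aA a v) X ∧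
    IsSquare (pl (aA a v) (9 * h + 1) * qQ a v) ∧ 0 < rR p d (aA a v) (9 * h + 1) (ps (aA a v) X) l

open Classical in
theorem core {T : ℕ → Prop} (hT : Good T) (h8 : ∀ m, m % 9 = 8 → ¬T m) (κ : ℕ) (κ1 : 1 ≤ κ) :
    ∃ (p : MvPolynomial (Fin 3) ℤ) (d N : ℕ) (k : ℤ), 0 ≤ k ∧ ∀ u w : ℕ, 1 ≤ u →
      (∀ v h g l y, L0 (fun P Q S T R => IsSquare P ∧ IsSquare Q ∧ S ∣ T ∧ 0 < R)
        p d k κ u w v h g l y → ∃ n : ℕ, T (9 * n + 1) ∧ T (9 * (κ * (u * n + w) ^ 2) + 3)) ∧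
      ∀ n : ℕ, N ≤ n → Even (u * n + w) → T (9 * n + 1) → T (9 * (κ * (u * n + w) ^ 2) + 3) →
        ∃ v h g l X : ℤ, Odd X ∧ 3 ∣ X ∧ Cp p d κ u w (a0 k u w) v h g l X := by
  obtain ⟨p, d, N, K, K1, b1, b2⟩ := read hT
  refine ⟨p, d, N, K * κ, mul_nonneg (by omega) (by omega), fun u w u1 => ?_⟩
  have n9 := nine (K * κ) u w
  have s1 : (1 : ℤ) ≤ (u + w + 1) ^ 2 := one_le_pow₀ (by omega)
  have κ2 : (1 : ℤ) ≤ κ := by omega
  have aK : K + 10 ≤ a0 (K * κ) u w := by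
    have := one_le_mul_of_one_le_of_one_le κ2 s1
    rw [a0]; nlinarith
  have aκ : 9 * κ * (u + w : ℤ) ^ 2 + 10 ≤ a0 (K * κ) u w := by
    have h1 : (u + w : ℤ) ^ 2 ≤ (u + w + 1) ^ 2 := pow_le_pow_left₀ (by omega) (by omega) 2
    have h2 := mul_le_mul_of_nonneg_left h1 (by omega : (0 : ℤ) ≤ κ)
    have h3 := mul_le_mul_of_nonneg_right K1 (by positivity : (0 : ℤ) ≤ κ * (u + w + 1) ^ 2)
    have h4 : (0 : ℤ) ≤ κ * (u + w) ^ 2 := by positivity
    rw [a0]; nlinarith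
  unfold L0 L1 L2 L3 Cp
  generalize a0 (K * κ) u w = a at *
  have nx : ∀ n : ℕ, n ≤ κ * (u * n + w) ^ 2 := fun n =>
    calc n ≤ u * n + w := (Nat.le_mul_of_pos_left n u1).trans (Nat.le_add_right _ _)
      _ ≤ (u * n + w) ^ 2 := Nat.le_self_pow two_ne_zero _
      _ ≤ _ := Nat.le_mul_of_pos_left _ κ1
  refine ⟨fun v h g l y ⟨h1, h2, h3, hR⟩ => ?_, fun n hn hev t1 t2 => ?_⟩
  · have A9 := n9 v
    set A := aA a v with hA
    set C := 9 * h + 1 with hC
    set D := 9 * κ * (u * h + w) ^ 2 + 3 + (A - 1) * g with hD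
    have D3 : 9 ∣ D - 3 := dv ((dvd_mul_right 9 (κ * (u * h + w) ^ 2 : ℤ)).add (A9.mul_right g))
      (by rw [hD]; ring)
    have A0 : A ≠ 0 := by omega
    have P0 : ∀ x, 0 < pl A x := fun x => by
      have : 0 ≤ A ^ 2 - 1 := by have := sq_pos_of_ne_zero A0; omega
      unfold pl; positivity
    have co : ∀ x, IsCoprime (A ^ 2 - 1) (pl A x) := fun x => cop ⟨x ^ 2, by rw [pl]; ring⟩
    have split : ∀ x q, IsCoprime (pl A x) q → IsSquare (pl A x * q) →
        IsSquare (pl A x) ∧ IsSquare q := fun x q c s => by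
      obtain ⟨e, he⟩ := sq_or c s (P0 x)
      obtain ⟨s, hs⟩ := s
      have := P0 x
      exact ⟨⟨e, by rw [← he, sq]⟩, isSquare_of_mul (b := e) (c := s)
        (by rintro rfl; simp at he; omega) (by rw [he, hs, sq])⟩
    obtain ⟨⟨x1, q1⟩, hQ⟩ := split C _ ((co C).of_isCoprime_of_dvd_left
      ⟨a ^ 2 - 1, by rw [hA, aA_sq]; ring⟩).symm h1
    obtain ⟨q2, q3⟩ := split D _ (by
      have c1 : IsCoprime (pl A D) (a ^ 2 - 1) :=
        ((co D).of_isCoprime_of_dvd_left ⟨_, aA_sq a v⟩).symm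
      rw [show gL a A D ^ 2 - 1 = a ^ 2 - 1 + pl A D * ((A - a) * (a + gL a A D)) by
          rw [gL]; ring,
        show sL A D y ^ 2 - 1 = A ^ 2 - 1 + pl A D * (y * (A + sL A D y)) by rw [sL]; ring]
      exact (c1.add_mul_left_right _).mul_right ((co D).symm.add_mul_left_right _)) h2
    obtain ⟨j, j1, hj⟩ := aA_index (by omega) hQ
    rw [← hA] at hj
    have A1 : a ^ j ≤ A := hj ▸ pow_le_ch (by omega) j
    have A2 : a ≤ A := (le_self_pow₀ (by omega) (by omega)).trans A1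
    obtain ⟨i, hi, ij⟩ := link (C := D) (y := y) (by omega) j1 (by omega) (hj ▸ q2) (hj ▸ h3)
      (hj ▸ q3)
    rw [← hj] at hi
    obtain ⟨m, hm⟩ := exists_index (A := A) (x := x1) (y := C) (by omega) (by rw [sq, ← q1, pl])
    have c0 : (2 * A - 2) * (C + D) ≠ 0 := mul_ne_zero (by omega) (by omega)
    have W0 : 0 < (2 * A * ((2 * A - 2) * (C + D))) ^ (2 * d) := by rw [pow_mul]; positivity
    have r1 := b1 A _ (3 * l + 2) (by omega) c0
    unfold rR at hR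
    have D2 : 0 < D ^ 2 := sq_pos_of_ne_zero (by omega)
    have r2 : 0 < MvPolynomial.eval ![2 * A, (2 * A - 2) * (C + D), 3 * l + 2] p := by
      by_contra z
      nlinarith [mul_nonneg W0.le (sq_nonneg C)]
    have r3 : |m| ≤ |i| := by
      have : C ^ 2 < D ^ 2 := by
        by_contra z
        nlinarith [mul_le_mul_of_nonneg_right r1 D2.le, mul_le_mul_of_nonneg_left (not_lt.1 z) W0.le]
      rw [sq_lt_sq, hm, hi, abs_ps (by omega), abs_ps (by omega)] at this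
      exact ((ps_strictMono (by omega)).lt_iff_lt.1 this).le
    have d1 : A - 1 ∣ C - m := hm ▸ ps_index A m
    obtain ⟨n, hn⟩ : ∃ n, m = 9 * n + 1 := ⟨m / 9, by have := A9.trans d1; omega⟩
    have ei : i = 9 * κ * (u * n + w) ^ 2 + 3 := by
      have d2 : A - 1 ∣ i - (9 * κ * (u * n + w) ^ 2 + 3) :=
        dv (((dvd_mul_right (A - 1) g).sub (ps_index A i)).add
          (d1.mul_right (κ * u * (u * h + u * n + 2 * w)))) (by rw [← hi, hD, hC, hn]; ring)
      obtain ⟨j, rfl⟩ := Nat.exists_eq_add_of_le' j1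
      exact pin (j := j + 1) (by omega) (by omega) (by omega) (by omega) aκ
        ((sq_le_pow (a := a) (by omega) j).trans A1) (by exact_mod_cast ij) (hn ▸ r3) d2
    have i0 : 0 < i := by rw [ei]; positivity
    obtain ⟨X, hX⟩ := Int.eq_ofNat_of_zero_le i0.le
    have A3 : K ^ X ≤ A := ((pow_le_pow_left₀ (by omega) (show K ≤ a by omega) X).trans
      (pow_le_pow_right₀ (by omega) (by have := le_abs_self i; omega))).trans A1
    rw [abs_of_pos i0] at r3
    rcases le_or_gt 0 n with n0 | n0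
    · obtain ⟨n, rfl⟩ := Int.eq_ofNat_of_zero_le n0
      obtain ⟨L, l1, l2, -⟩ := b2 A 1 _ (9 * n + 1) X (.inl rfl) (by omega)
        (by have := le_abs_self m; omega) A3 (by omega)
        (by rw [← hX, ← hi, one_mul]; push_cast; rw [← hn, ← hm]) c0
      rw [← l2 _ r2] at l1
      obtain rfl : X = 9 * (κ * (u * n + w) ^ 2) + 3 := by
        have : (X : ℤ) = (9 * (κ * (u * n + w) ^ 2) + 3 : ℕ) := by push_cast; linarith
        exact_mod_cast this
      refine ⟨n, ?_⟩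
      push_cast at l1
      rw [show (3 : ZMod 3) = 0 from rfl] at l1
      split_ifs at l1 with g1 g2
      · exact ⟨g1, g2⟩
      all_goals exact absurd l1 (by simp only [zero_mul]; decide)
    · obtain ⟨M, hM⟩ := Int.eq_ofNat_of_zero_le (show 0 ≤ -m by omega)
      obtain ⟨L, l1, l2, -⟩ := b2 A (-1) _ M X (.inr rfl) (by omega)
        (by have := neg_le_abs m; omega) A3 (by omega)
        (by rw [← hX, ← hi, ← hM, ps_neg, ← hm, neg_mul_neg, one_mul]) c0
      rw [← l2 _ r2, if_neg (h8 M (by omega))] at l1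
      push_cast at l1
      rw [show (3 : ZMod 3) = 0 from rfl] at l1
      split_ifs at l1
      all_goals exact absurd l1 (by simp only [zero_mul]; decide)
  · obtain ⟨s, hs⟩ : ∃ s, 9 * (κ * (u * n + w) ^ 2) + 3 = 2 * s + 1 := by
      obtain ⟨e, he⟩ := hev
      exact ⟨18 * (κ * e ^ 2) + 1, by rw [he]; ring⟩
    have nX := nx n
    set X := 9 * (κ * (u * n + w) ^ 2) + 3 with hX
    obtain ⟨v, hv⟩ := aA_complete a s
    have A9 := n9 v
    set A := aA a v with hA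
    rw [show (2 * s + 1 : ℤ) = X by rw [hs]; push_cast; ring] at hv
    have A1 : a ^ X ≤ A := hv ▸ pow_le_ch (by omega) X
    have A2 : a ≤ A := (le_self_pow₀ (by omega) (by omega)).trans A1
    have d1 := ps_index A (9 * n + 1 : ℕ)
    have C1 : 0 < ps A (9 * n + 1 : ℕ) := ps_zero A ▸ ps_strictMono (by omega) (by omega)
    have C2 : 2 * ps A (9 * n + 1 : ℕ) ≤ ps A X := by
      refine le_trans ?_ ((ps_strictMono (by omega)).monotone
        (show ((9 * n + 1 : ℕ) : ℤ) + 1 ≤ X by omega))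
      rw [ps_succ]
      nlinarith [ch_pos (A := A) (by omega) (9 * n + 1 : ℕ)]
    set C := ps A (9 * n + 1 : ℕ) with hC
    set D := ps A X with hD
    obtain ⟨h, hh⟩ : ∃ h, C = 9 * h + 1 := ⟨C / 9, by have := A9.trans d1; omega⟩
    obtain ⟨g, hg⟩ : A - 1 ∣ D - (9 * κ * (u * h + w) ^ 2 + 3) :=
      dv ((ps_index A X).sub (d1.mul_right (κ * u * (u * h + u * n + 2 * w))))
        (by rw [← hD, hh, hX]; push_cast; ring)
    have c0 : (2 * A - 2) * (C + D) ≠ 0 := mul_ne_zero (by omega) (by omega)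
    obtain ⟨L, l1, -, l3⟩ := b2 A 1 _ (9 * n + 1) X (.inl rfl) (by omega) (by omega)
      ((pow_le_pow_left₀ (by omega) (show K ≤ a by omega) X).trans A1) (by omega)
      (by rw [one_mul]) c0
    rw [if_pos t1, if_pos t2] at l1
    obtain ⟨l, hl⟩ : (3 : ℤ) ∣ L - 2 := (ZMod.intCast_zmod_eq_zero_iff_dvd _ 3).1 (by
      push_cast at l1 ⊢; rw [l1]; rfl)
    have hQ : qQ a v = ps a X ^ 2 := by
      have h1 := aA_sq a v
      rw [← hA, hv, pell, add_sub_cancel_right] at h1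
      exact (mul_left_cancel₀ (by nlinarith) h1).symm
    refine ⟨v, h, g, l, X, ⟨s, by rw [hs]; push_cast; ring⟩, by omega, ?_⟩
    rw [← hA, ← hh, ← hD]
    refine ⟨hv, A2, by linarith,
      ⟨ch A (9 * n + 1 : ℕ) * ps a X, by rw [hQ, pl, hC, ← pell]; ring⟩, ?_⟩
    · have W0 : 0 < (2 * A * ((2 * A - 2) * (C + D))) ^ (2 * d) := by
        have : A ≠ 0 := by omega
        rw [pow_mul]; positivity
      have l4 := l3 rfl (by omega)
      unfold rR
      rw [show 3 * l + 2 = L by omega]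
      have e1 : 4 * C ^ 2 ≤ D ^ 2 := by nlinarith only [C1, C2]
      have e2 : 0 < C ^ 2 := by positivity
      linarith only [mul_le_mul_of_nonneg_right l4 (sq_nonneg D),
        mul_le_mul_of_nonneg_left e1 W0.le, mul_pos W0 e2]

theorem system : ∃ (U : ℕ → Prop) (u w : ℕ → ℕ) (p : MvPolynomial (Fin 3) ℤ) (d : ℕ) (k κ : ℤ),
    ¬ComputablePred U ∧ Primrec u ∧ Primrec w ∧ 0 ≤ k ∧ ∀ a,
      (∀ v h g l y, L0 (fun P Q S T R => IsSquare P ∧ IsSquare Q ∧ S ∣ T ∧ 0 < R)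
        p d k κ (u a) (w a) v h g l y → U a) ∧
      (U a → ∃ v h g l X : ℤ, Odd X ∧ 3 ∣ X ∧
        Cp p d κ (u a) (w a) (a0 k (u a) (w a)) v h g l X) := by
  obtain ⟨U, T, κ, u, w, hU, hT, h8, κ1, hu, hw, h⟩ := track
  obtain ⟨p, d, N, k, k0, g⟩ := core hT h8 κ κ1
  refine ⟨U, u, w, p, d, k, κ, hU, hu, hw, k0, fun a => ?_⟩
  obtain ⟨u1, h1, h2⟩ := h a
  obtain ⟨g1, g2⟩ := g (u a) (w a) u1
  refine ⟨fun v h g l y e => h1 (g1 v h g l y e), fun e => ?_⟩
  obtain ⟨n, n1, n2, n3, n4⟩ := h2 e N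
  exact g2 n n1 n2 n3 n4

end Pool.Agent.MP_fed7c7_lc.H34
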