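import Mathlib
import Pool.Agent.MP_fed7c7_lc.H21.Link

set_option autoImplicit false

/-!
A number `x ≡ 5 (mod 8)` in suitable residue classes divides a term of the Pell sequence `ch G`
only if a chosen factor `m` of `G + 1` is positive; if `m` is positive, some prime in these classes
divides a term whose index lies in a prescribed class modulo the period.
-/

namespace Pool.Agent.MP_fed7c7_lc.H34

open Pool.Agent.MP_fed7c7_lc.H56 Pool.Agent.MP_fed7c7_lc.H21

theorem jrec {x : ℤ} (h : x % 4 = 1) {b : ℕ} (hb : Odd b) :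
    jacobiSym b x.natAbs = jacobiSym x b := by
  rcases Int.natAbs_eq x with e | e
  · have h4 : x.natAbs % 4 = 1 := by omega
    rw [jacobiSym.quadratic_reciprocity_one_mod_four' hb h4, ← e]
  · have h4 : x.natAbs % 4 = 3 := by omega
    generalize x.natAbs = n at *
    subst e
    rw [jacobiSym.neg _ hb]
    rcases Nat.odd_mod_four_iff.1 (Nat.odd_iff.1 hb) with g | g
    · rw [ZMod.χ₄_nat_one_mod_four g, one_mul,
        jacobiSym.quadratic_reciprocity_one_mod_four g (by rw [Nat.odd_iff]; omega)]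
    · rw [ZMod.χ₄_nat_three_mod_four g, jacobiSym.quadratic_reciprocity_three_mod_four g h4]
      ring

theorem jcong {x y b : ℤ} (h : b ∣ x - y) : jacobiSym x b.natAbs = jacobiSym y b.natAbs :=
  jacobiSym.mod_left' (Int.modEq_iff_dvd.2 (Int.natAbs_dvd.2 h)).symm

theorem jone {x u b : ℤ} (h : x ∣ u * b ^ 2 - 1) : jacobiSym u x.natAbs = 1 := by
  have h1 := jcong h
  rw [jacobiSym.one_left, jacobiSym.mul_left, jacobiSym.pow_left] at h1
  rcases jacobiSym.trichotomy b x.natAbs with g | g | g <;> rw [g] at h1 <;> linarith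

theorem jfour {x b : ℤ} (hb : Odd b) (h : b ∣ x - 4) : jacobiSym x b.natAbs = 1 := by
  rw [jcong h, jacobiSym.at_four (Int.natAbs_odd.2 hb)]

theorem jminus {G x : ℤ} (hG : 2 ≤ G) (ev : Even G) (h4 : x % 4 = 1) (h : G - 1 ∣ x - 4) :
    jacobiSym (G - 1) x.natAbs = 1 := by
  have o : Odd (G - 1) := ev.sub_odd odd_one
  have h1 := jrec h4 (Int.natAbs_odd.2 o)
  rwa [jfour o h, Int.natAbs_of_nonneg (by omega)] at h1

theorem jplus {G c m x : ℤ} (hG : 2 ≤ G) (ev : Even G) (e : G + 1 = c * m) (h4 : x % 4 = 1)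
    (hc : c ∣ x - 4) (hm : m ∣ x + 1) : jacobiSym (G + 1) x.natAbs = ZMod.χ₄ m.natAbs := by
  have o : Odd (G + 1) := ev.add_one
  have o2 := Int.odd_mul.1 (e ▸ o)
  have c0 : c.natAbs ≠ 0 := Int.natAbs_ne_zero.2 (by rintro rfl; omega)
  have m0 : m.natAbs ≠ 0 := Int.natAbs_ne_zero.2 (by rintro rfl; omega)
  rw [← Int.natAbs_of_nonneg (show 0 ≤ G + 1 by omega), jrec h4 (Int.natAbs_odd.2 o), e,
    Int.natAbs_mul, jacobiSym.mul_right' _ c0 m0, jfour o2.1 hc, one_mul,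
    jcong (y := -1) (by rwa [sub_neg_eq_add]), jacobiSym.at_neg_one (Int.natAbs_odd.2 o2.2)]

theorem ch_even (G e : ℤ) : ch G (2 * e) + 1 = 2 * ch G e ^ 2 := by
  rw [two_mul, ch_add]; linear_combination -pell G e

theorem ch_odd (G e : ℤ) : ch G (2 * e + 1) + 1 = (G + 1) * (ch G e + (G - 1) * ps G e) ^ 2 := by
  rw [show 2 * e + 1 = e + (e + 1) by ring, ch_add, ch_succ, ps_succ]
  linear_combination -pell G e

/-- The sign certificate. -/
theorem sign_of_dvd {G c m x k : ℤ} (hG : 2 ≤ G) (ev : Even G) (e : G + 1 = c * m)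
    (h8 : x % 8 = 5) (hc : c ∣ x - 4) (hm : m ∣ x + 1) (m4 : m % 4 = 1) (h : x ∣ ch G k) :
    0 < m := by
  rcases Int.even_or_odd' k with ⟨j, rfl | rfl⟩
  · have h1 : jacobiSym 2 x.natAbs = 1 :=
      jone (b := ch G j) (dv h (by linear_combination -ch_even G j))
    rw [jacobiSym.at_two (by rw [Nat.odd_iff]; omega), ZMod.χ₈_nat_eq_if_mod_eight] at h1
    split_ifs at h1 <;> omega
  · have h1 : jacobiSym (G + 1) x.natAbs = 1 :=
      jone (b := ch G j + (G - 1) * ps G j) (dv h (by linear_combination -ch_odd G j))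
    rw [jplus hG ev e (by omega) hc hm, ZMod.χ₄_nat_eq_if_mod_four] at h1
    split_ifs at h1 <;> omega

theorem exists_period {G M : ℤ} (hG : 2 ≤ G) (hM : M ≠ 0) : ∃ n : ℕ, n ≠ 0 ∧ ∀ X w : ℤ,
    M ∣ ch G (X + 2 * n * w) - ch G X ∧ M ∣ ps G (X + 2 * n * w) - ps G X := by
  obtain ⟨x, s, x0, hs⟩ := exists_pell (d := G ^ 2 - 1) (N := M) (by nlinarith) (by
    rintro ⟨c, hc⟩
    rw [← abs_mul_abs_self] at hc
    have := abs_nonneg c
    rcases le_or_gt G |c| with g | g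
    · nlinarith
    · have : |c| ≤ G - 1 := by omega
      nlinarith) hM
  obtain ⟨n, hn⟩ := exists_index hG hs
  refine ⟨n.natAbs, Int.natAbs_ne_zero.2 ?_, fun X w => ?_⟩
  · rintro rfl
    exact mul_ne_zero hM x0 (hn.trans (ps_zero G))
  · obtain ⟨t, ht⟩ : n ∣ n.natAbs * w := (Int.dvd_natAbs.2 dvd_rfl).mul_right w
    obtain ⟨z, hz⟩ : M ∣ ps G (n * t) := (dvd_mul_right M x).trans (hn ▸ ps_dvd_mul G n t)
    have p1 := pell G (n * t)
    rw [hz] at p1
    rw [mul_assoc, ht, two_mul, ch_add G X, ps_add G X, ch_add, ps_add, hz]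
    exact ⟨⟨2 * (G ^ 2 - 1) * z * (ch G X * M * z + ps G X * ch G (n * t)), by
        linear_combination ch G X * p1⟩,
      ⟨2 * z * ((G ^ 2 - 1) * ps G X * M * z + ch G X * ch G (n * t)), by
        linear_combination ps G X * p1⟩⟩

theorem prime_dvd_ch {G : ℤ} {p r : ℕ} (hp : p.Prime) (e : p = 4 * r + 1) (h8 : p % 8 = 5)
    (h1 : jacobiSym (G + 1) p = 1) (h2 : jacobiSym (G - 1) p = 1) {o : ℤ} (ho : Odd o) :
    (p : ℤ) ∣ ch G (r * o) := by
  have := Fact.mk hp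
  obtain ⟨a, ha⟩ := ZMod.isSquare_of_jacobiSym_eq_one h1
  obtain ⟨b, hb⟩ := ZMod.isSquare_of_jacobiSym_eq_one h2
  push_cast at ha hb
  have hs : (a * b) ^ 2 = ((G ^ 2 - 1 : ℤ) : ZMod p) := by
    push_cast; linear_combination -(b * b) * ha - (G + 1) * hb
  have two : (2 : ZMod p) ^ (2 * r) = -1 := by
    have h3 := legendreSym.eq_pow p 2
    rw [jacobiSym.legendreSym.to_jacobiSym, jacobiSym.at_two (by rw [Nat.odd_iff]; omega),
      ZMod.χ₈_nat_eq_if_mod_eight, if_neg (by omega), if_neg (by omega),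
      show p / 2 = 2 * r by omega] at h3
    simpa using h3.symm
  have e1 : 2 * ((G : ZMod p) + a * b) = (a + b) ^ 2 := by linear_combination ha + hb
  have e2 : ((G : ZMod p) + a * b) * (G - a * b) = 1 := by
    push_cast at hs; linear_combination -hs
  have r0 : r ≠ 0 := by omega
  have t0 : (2 : ZMod p) ≠ 0 := by
    intro z
    rw [z, zero_pow (by omega)] at two
    exact one_ne_zero (neg_eq_zero.1 two.symm)
  have ab : a + b ≠ 0 := by
    intro z
    rw [z, zero_pow two_ne_zero, mul_eq_zero] at e1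
    rcases e1 with z | z
    · exact t0 z
    · rw [z, zero_mul] at e2; exact zero_ne_one e2
  have e3 : ((G : ZMod p) + a * b) ^ (2 * r) = -1 := by
    have h4 := ZMod.pow_card_sub_one_eq_one ab
    rw [show p - 1 = 2 * (2 * r) by omega, pow_mul, ← e1, mul_pow, two] at h4
    linear_combination -h4
  have e4 := pow_formula G (a * b) hs 1 (r * o.natAbs)
  have c1 : ch G 1 = G := by simp [ch]
  rw [c1, ps_one, one_mul, Int.cast_one, one_mul] at e4
  have e5 : (((G : ZMod p) + a * b) ^ (r * o.natAbs)) ^ 2 = -1 := by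
    rw [← pow_mul, show r * o.natAbs * 2 = 2 * r * o.natAbs by ring, pow_mul, e3,
      (Int.natAbs_odd.2 ho).neg_one_pow]
  rw [← ch_abs, abs_mul, Nat.abs_cast, Int.abs_eq_natAbs, ← Nat.cast_mul]
  generalize ((r * o.natAbs : ℕ) : ℤ) = K at *
  rw [e4] at e5
  have e6 := congrArg (Int.cast : ℤ → ZMod p) (pell G K)
  push_cast at e6 hs
  have e7 : 2 * ((ch G K : ZMod p) + ps G K * (a * b)) * ch G K = 0 := by
    linear_combination e5 + e6 - (ps G K : ZMod p) ^ 2 * hs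
  refine (ZMod.intCast_zmod_eq_zero_iff_dvd _ p).1
    ((mul_eq_zero.1 e7).resolve_left (mul_ne_zero t0 fun z => ?_))
  rw [z, zero_pow two_ne_zero] at e5
  exact one_ne_zero (neg_eq_zero.1 e5.symm)

theorem exists_prime {F m x : ℤ} (oF : Odd F) (F9 : 9 ∣ F) (m0 : m ≠ 0) (hF : F ∣ x - 4)
    (hm : m ∣ x + 1) (h8 : x % 8 = 5) {n : ℕ} (n0 : n ≠ 0) :
    ∃ p r : ℕ, p.Prime ∧ p = 12 * r + 1 ∧ 8 * F * m ∣ p - x ∧ Nat.Coprime r (2 * n) := by
  classical
  set L := 8 * F * m with hL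
  set Q : ℤ := ∏ q ∈ n.primeFactors.filter fun q : ℕ => ¬(q : ℤ) ∣ L, (q : ℤ) with hQ
  have c1 : IsCoprime L Q := IsCoprime.prod_right fun q hq => by
    rw [Finset.mem_filter] at hq
    exact ((Nat.prime_iff_prime_int.1 (Nat.prime_of_mem_primeFactors hq.1)).coprime_iff_not_dvd.2
      hq.2).symm
  have Q0 : Q ≠ 0 := Finset.prod_ne_zero_iff.2 fun q hq => by
    rw [Finset.mem_filter] at hq
    exact_mod_cast (Nat.prime_of_mem_primeFactors hq.1).ne_zero
  have F0 : F ≠ 0 := by rintro rfl; exact absurd oF (by decide)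
  have L0 : L ≠ 0 := mul_ne_zero (mul_ne_zero (by norm_num) F0) m0
  have c2 : IsCoprime x L := by
    obtain ⟨f, hf⟩ := oF
    obtain ⟨e, he⟩ := hF
    obtain ⟨d, hd⟩ := hm
    have c4 : IsCoprime (2 ^ 2 : ℤ) F := IsCoprime.pow_left ⟨-f, 1, by linarith⟩
    refine (IsCoprime.mul_right ⟨5, -(5 * (x / 8) + 3), by omega⟩ ?_).mul_right ⟨-1, d, by linarith⟩
    rw [show x = 2 ^ 2 + F * e by linarith]
    exact c4.add_mul_left_left _
  have c3 : IsCoprime 2 Q := c1.of_isCoprime_of_dvd_left ⟨4 * F * m, by rw [hL]; ring⟩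
  obtain ⟨α, β, h1⟩ := c1
  have c5 : IsCoprime (x + L * ((2 - x) * α)) (L * Q) := by
    refine (c2.add_mul_left_left _).mul_right ?_
    rw [show x + L * ((2 - x) * α) = 2 + Q * ((x - 2) * β) by linear_combination (2 - x) * h1]
    exact c3.add_mul_left_left _
  obtain ⟨p, -, hp, e⟩ := Nat.forall_exists_prime_gt_and_zmodEq 0 (q := (L * Q).natAbs)
    (a := x + L * ((2 - x) * α)) (Int.natAbs_ne_zero.2 (mul_ne_zero L0 Q0))
    (c5.of_isCoprime_of_dvd_right (Int.natAbs_dvd.2 dvd_rfl))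
  have e1 := Int.natAbs_dvd.1 e.symm.dvd
  have d1 : L ∣ p - x := dv (((dvd_mul_right L Q).trans e1).add (dvd_mul_right L ((2 - x) * α)))
    (by ring)
  have d2 : Q ∣ p - 2 := dv (((dvd_mul_left Q L).trans e1).add (dvd_mul_right Q ((x - 2) * β)))
    (by linear_combination (2 - x) * h1)
  have d8 : 8 ∣ p - x := Dvd.dvd.trans ⟨F * m, by rw [hL]; ring⟩ d1
  have dF : F ∣ p - 4 := dv ((Dvd.dvd.trans ⟨8 * m, by rw [hL]; ring⟩ d1).add hF) (by ring)
  have dm : m ∣ p + 1 := dv ((Dvd.dvd.trans ⟨8 * F, by rw [hL]; ring⟩ d1).add hm) (by ring)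
  have d9 := F9.trans dF
  obtain ⟨r, hr⟩ : ∃ r, p = 12 * r + 1 := ⟨p / 12, by omega⟩
  refine ⟨p, r, hp, hr, d1, Nat.coprime_of_dvd fun q hq q1 q2 => ?_⟩
  have q3 : (q : ℤ) ∣ p - 1 := dv ((Int.natCast_dvd_natCast.2 q1).mul_left 12) (by omega)
  have q4 : q ≠ 2 := by rintro rfl; omega
  have q5 : q ≠ 3 := by rintro rfl; omega
  have pq := Nat.prime_iff_prime_int.1 hq
  have small : ∀ t : ℕ, t.Prime → (q : ℤ) ∣ t → q = t := fun t ht g =>
    (Nat.prime_dvd_prime_iff_eq hq ht).1 (Int.natCast_dvd_natCast.1 g)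
  by_cases g : (q : ℤ) ∣ L
  · rcases pq.dvd_or_dvd g with g | g
    · rcases pq.dvd_or_dvd g with g | g
      · exact q4 (small 2 Nat.prime_two (pq.dvd_of_dvd_pow (n := 3) (dv g (by norm_num))))
      · exact q5 (small 3 Nat.prime_three (dv (q3.sub (g.trans dF)) (by push_cast; ring)))
    · exact q4 (small 2 Nat.prime_two (dv ((g.trans dm).sub q3) (by push_cast; ring)))
  · have q6 : q ∣ n := ((Nat.Prime.dvd_mul hq).1 q2).resolve_left fun z =>
      q4 ((Nat.prime_dvd_prime_iff_eq hq Nat.prime_two).1 z)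
    have q7 : (q : ℤ) ∣ Q := Finset.dvd_prod_of_mem (fun q : ℕ => (q : ℤ))
      (Finset.mem_filter.2 ⟨Nat.mem_primeFactors.2 ⟨hq, q6, n0⟩, g⟩)
    exact pq.not_dvd_one (dv (q3.sub (q7.trans d2)) (by ring))

/-- The certificate exists when `m` is positive. -/
theorem exists_dvd {G c m F x X M : ℤ} (hG : 2 ≤ G) (ev : Even G) (e : G + 1 = c * m)
    (oF : Odd F) (F9 : 9 ∣ F) (cF : c ∣ F) (GF : G - 1 ∣ F) (hF : F ∣ x - 4) (hm : m ∣ x + 1)
    (h8 : x % 8 = 5) (m0 : 0 < m) (m4 : m % 4 = 1) (oX : Odd X) (X3 : 3 ∣ X) (hM : M ≠ 0) :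
    ∃ s k, x + 8 * F * m * s ∣ ch G k ∧ M ∣ ch G k - ch G X ∧ M ∣ ps G k - ps G X := by
  obtain ⟨n, n0, hn⟩ := exists_period hG hM
  obtain ⟨p, r, hp, er, ⟨s, hs⟩, co⟩ := exists_prime oF F9 m0.ne' hF hm h8 n0
  obtain ⟨α, β, h1⟩ := Nat.isCoprime_iff_coprime.2 co
  obtain ⟨Y, rfl⟩ := X3
  push_cast at h1
  have ek : ((3 * r : ℕ) : ℤ) * (Y * α) = 3 * Y + 2 * n * (-(3 * Y * β)) := by
    push_cast; linear_combination 3 * Y * h1
  have ok : Odd (Y * α) := by
    refine (Int.odd_mul.1 (ek ▸ oX.add_even ?_)).2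
    exact ⟨n * (-(3 * Y * β)), by ring⟩
  have p8 : (p : ℤ) % 8 = 5 := by
    have : (p : ℤ) = x + 8 * (F * m * s) := by linarith
    omega
  have dF : F ∣ p - 4 := dv (hF.add (dvd_mul_right F (8 * m * s))) (by linarith)
  have dm : m ∣ p + 1 := dv (hm.add (dvd_mul_right m (8 * F * s))) (by linarith)
  have j1 := jplus hG ev e (x := p) (by omega) (cF.trans dF) dm
  have j2 := jminus hG ev (x := p) (by omega) (GF.trans dF)
  rw [Int.natAbs_natCast] at j1 j2
  rw [ZMod.χ₄_nat_one_mod_four (by omega)] at j1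
  refine ⟨s, _, ?_, hn _ (-(3 * Y * β))⟩
  rw [← ek, show x + 8 * F * m * s = p by linarith]
  exact prime_dvd_ch hp (by omega) (by omega) j1 j2 ok

end Pool.Agent.MP_fed7c7_lc.H34
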