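import Mathlib
import Pool.Agent.MP_fed7c7_lc.H34.Jac
import Pool.Agent.MP_fed7c7_lc.H34.Core

set_option autoImplicit false

/-!
Undecidable equations in seven integer unknowns: the inequality is certified by one unknown.
-/

namespace Pool.Agent.MP_fed7c7_lc.H34

open Pool.Agent.MP_fed7c7_lc.H56 Pool.Agent.MP_fed7c7_lc.H21 Pool.Agent.MP_fed7c7_lc.H93

/-- The number which carries the sign of `R`. -/
def mM (G P D R : ℤ) : ℤ := 1 + 16 * (G + 1) * P * D ^ 2 * (R - 1)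

/-- The first term of the progression. -/
def x0 (F P D R m : ℤ) : ℤ := 4 + F * (40 * P * D * (R - 1) + m * F)

/-- Two squares and two divisibilities as one equation. -/
def E5 (P₁ P D G S x z : ℤ) : ℤ :=
  cmb ((G ^ 2 - 1) * D ^ 2 * x * z - ((S ^ 2 - 1) * x + (G ^ 2 - 1) * D ^ 2 * S))
    ((G ^ 2 - 1) * D ^ 2 * x) P₁ (P * ((G ^ 2 - 1) * (S ^ 2 - 1)))

def E4 (P₁ P D R m G F S s z : ℤ) : ℤ := E5 P₁ P D G S (x0 F P D R m + 8 * F * m * s) z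

def E3 (P₁ P D R m c S s z : ℤ) : ℤ := E4 P₁ P D R m (c * m - 1) (c * (c * m - 1 - 1) * D) S s z

def E2 (P₁ P D R G S s z : ℤ) : ℤ := E3 P₁ P D R (mM G P D R) ((G + 1) * (2 * mM G P D R - 1)) S s z

noncomputable def E1 (p : MvPolynomial (Fin 3) ℤ) (d : ℕ) (a A Q C D l y s z : ℤ) : ℤ :=
  E2 (pl A C * Q) (pl A D) D (rR p d A C D l) (gL a A D) (sL A D y) s z

noncomputable def E0' (p : MvPolynomial (Fin 3) ℤ) (d : ℕ) (q a A Q h g l y s z : ℤ) : ℤ :=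
  E1 p d a A Q (9 * h + 1) (q + 3 + (A - 1) * (q + 2 * g)) l y s z

/-- The equation. -/
noncomputable def E0 (p : MvPolynomial (Fin 3) ℤ) (d : ℕ) (k κ u w v h g l y s z : ℤ) : ℤ :=
  E0' p d (9 * κ * (u * h + w) ^ 2) (a0 k u w) (aA (a0 k u w) v) (qQ (a0 k u w) v) h g l y s z

theorem pf_E0 {σ : Type} (p : MvPolynomial (Fin 3) ℤ) (d : ℕ) (k κ : ℤ)
    {u w v h g l y s z : (σ → ℤ) → ℤ} (hu : PF u) (hw : PF w) (hv : PF v) (hh : PF h) (hg : PF g)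
    (hl : PF l) (hy : PF y) (hs : PF s) (hz : PF z) :
    PF fun x => E0 p d k κ (u x) (w x) (v x) (h x) (g x) (l x) (y x) (s x) (z x) := by
  have h5 : ∀ {P₁ P D G S t : (σ → ℤ) → ℤ}, PF P₁ → PF P → PF D → PF G → PF S → PF t →
      PF fun x => E5 (P₁ x) (P x) (D x) (G x) (S x) (t x) (z x) := fun _ _ _ _ _ _ =>
    pf_cmb (by fun_prop) (by fun_prop) (by fun_prop) (by fun_prop)
  have h4 : ∀ {P₁ P D R m G F S : (σ → ℤ) → ℤ}, PF P₁ → PF P → PF D → PF R → PF m → PF G → PF F →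
      PF S → PF fun x => E4 (P₁ x) (P x) (D x) (R x) (m x) (G x) (F x) (S x) (s x) (z x) :=
    fun a b c _ _ e _ f => h5 a b c e f (by unfold x0; fun_prop)
  have h3 : ∀ {P₁ P D R m c S : (σ → ℤ) → ℤ}, PF P₁ → PF P → PF D → PF R → PF m → PF c →
      PF S → PF fun x => E3 (P₁ x) (P x) (D x) (R x) (m x) (c x) (S x) (s x) (z x) :=
    fun a b c e f _ i => h4 a b c e f (by fun_prop) (by fun_prop) i
  have h2 : ∀ {P₁ P D R G S : (σ → ℤ) → ℤ}, PF P₁ → PF P → PF D → PF R → PF G →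
      PF S → PF fun x => E2 (P₁ x) (P x) (D x) (R x) (G x) (S x) (s x) (z x) :=
    fun a b c e _ i => h3 a b c e (by unfold mM; fun_prop) (by unfold mM; fun_prop) i
  have h1 : ∀ {a A Q C D : (σ → ℤ) → ℤ}, PF a → PF A → PF Q → PF C → PF D → PF fun x =>
      E1 p d (a x) (A x) (Q x) (C x) (D x) (l x) (y x) (s x) (z x) := fun _ _ _ _ e =>
    h2 (by fun_prop) (by fun_prop) e (by unfold rR; fun_prop) (by unfold gL; fun_prop)
      (by unfold sL; fun_prop)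
  have h0 : ∀ {q a A Q : (σ → ℤ) → ℤ}, PF q → PF a → PF A → PF Q → PF fun x =>
      E0' p d (q x) (a x) (A x) (Q x) (h x) (g x) (l x) (y x) (s x) (z x) := fun _ a b c =>
    h1 a b c (by fun_prop) (by fun_prop)
  have ha : PF fun x => a0 k (u x) (w x) := by unfold a0; fun_prop
  exact h0 (by fun_prop) ha (by unfold aA; fun_prop) (by unfold qQ; fun_prop)

/-- The congruences of the new parameters. -/
theorem facts {G₀ P D R m c G F x : ℤ} (ev : Even G₀) (oD : Odd D) (hm : m = mM G₀ P D R)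
    (hc : c = (G₀ + 1) * (2 * m - 1)) (hG : G = c * m - 1) (hF : F = c * (G - 1) * D)
    (hx : x = x0 F P D R m) : Even G ∧ Odd F ∧ m % 4 = 1 ∧ P * D ^ 2 ∣ G - G₀ ∧ F ∣ x - 4 ∧
      m ∣ x + 1 ∧ x % 8 = 5 ∧ (2 ≤ G₀ → 2 ≤ G) := by
  obtain ⟨t, ht⟩ : ∃ t, m = 1 + 16 * t := ⟨(G₀ + 1) * P * D ^ 2 * (R - 1), by rw [hm, mM]; ring⟩
  have om : Odd m := ⟨8 * t, by omega⟩
  have oc : Odd c := hc ▸ ev.add_one.mul ⟨m - 1, by ring⟩
  have eG : Even G := hG ▸ (oc.mul om).sub_odd odd_one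
  have oF : Odd F := hF ▸ (oc.mul (eG.sub_odd odd_one)).mul oD
  have e : m - 1 = 16 * (G₀ + 1) * P * D ^ 2 * (R - 1) := by rw [hm, mM]; ring
  refine ⟨eG, oF, by omega, ⟨(G₀ + 1) * (2 * m + 1) * (16 * (G₀ + 1) * (R - 1)), ?_⟩,
    ⟨40 * P * D * (R - 1) + m * F, by rw [hx, x0]; ring⟩, ⟨F ^ 2 + 5 + 40 * P * D ^ 2 * (R - 1) * (G₀ + 1) *
      ((G₀ + 1) * (2 * m - 1) ^ 2 - 4), ?_⟩, ?_, fun h => ?_⟩
  · rw [hG, hc]; linear_combination (G₀ + 1) * (2 * m + 1) * e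
  · rw [hx, x0]
    have : F = (G₀ + 1) * (2 * m - 1) * ((G₀ + 1) * (2 * m - 1) * m - 1 - 1) * D := by
      rw [hF, hG, hc]
    linear_combination (40 * P * D * (R - 1)) * this - 5 * e
  · obtain ⟨f, hf⟩ := oF
    obtain ⟨j, hj⟩ := Int.even_mul_succ_self f
    have : x = 8 * (5 * F * P * D * (R - 1) + 2 * t * F ^ 2 + j) + 5 := by
      rw [hx, x0, ht, hf]; linear_combination 4 * hj
    omega
  · have : 1 ≤ (2 * m - 1) * m := by
      rcases le_or_gt m 0 with g | g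
      · have : m ≤ -1 := by omega
        nlinarith
      · nlinarith
    rw [hG, hc]; nlinarith

theorem e2_sound {P₁ P D R G₀ S s z : ℤ} (ev : Even G₀) (oD : Odd D)
    (h : E2 P₁ P D R G₀ S s z = 0) : IsSquare P₁ ∧ (2 ≤ G₀ → 0 < P → IsCoprime P (S ^ 2 - 1) →
      0 < R ∧ IsSquare P ∧ ∃ S₀ w, P ∣ S₀ - S ∧ S₀ ^ 2 - 1 = (G₀ ^ 2 - 1) * D ^ 2 * w ^ 2) := by
  unfold E2 E3 E4 E5 at h
  obtain ⟨eG, oF, m4, dG, hF, hm, h8, G2⟩ := facts (P := P) (R := R) ev oD rfl rfl rfl rfl rfl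
  have em : mM G₀ P D R = 1 + 16 * (G₀ + 1) * P * D ^ 2 * (R - 1) := rfl
  generalize mM G₀ P D R = m at *
  generalize (G₀ + 1) * (2 * m - 1) = c at *
  obtain ⟨G, hG⟩ : ∃ G, G = c * m - 1 := ⟨_, rfl⟩
  rw [← hG] at h eG oF dG hF hm h8 G2
  obtain ⟨F, eF⟩ : ∃ F, F = c * (G - 1) * D := ⟨_, rfl⟩
  rw [← eF] at h oF hF hm h8
  generalize x0 F P D R m = x at *
  obtain ⟨y, hy⟩ : ∃ y, y = x + 8 * F * m * s := ⟨_, rfl⟩
  rw [← hy] at h
  have yF : F ∣ y - 4 := dv (hF.add (dvd_mul_right F (8 * m * s))) (by rw [hy]; ring)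
  have ym : m ∣ y + 1 := dv (hm.add (dvd_mul_right m (8 * F * s))) (by rw [hy]; ring)
  have y8 : y % 8 = 5 := by
    have : y = x + 8 * (F * m * s) := by rw [hy]; ring
    omega
  have G0 : G ^ 2 - 1 ≠ 0 := fun z => by
    rcases sq_eq_one_iff.1 (sub_eq_zero.1 z) with e | e <;> exact absurd (e ▸ eG) (by decide)
  have D0 : D ≠ 0 := by rintro rfl; exact absurd oD (by decide)
  have co : IsCoprime y ((G ^ 2 - 1) * D ^ 2) := by
    obtain ⟨f, hf⟩ := oF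
    obtain ⟨e, he⟩ := yF
    obtain ⟨j, hj⟩ := ym
    have c4 : IsCoprime (2 ^ 2 : ℤ) F := IsCoprime.pow_left ⟨-f, 1, by linarith⟩
    have c5 : IsCoprime y F := by
      rw [show y = 2 ^ 2 + F * e by linarith]
      exact c4.add_mul_left_left _
    have c6 : IsCoprime y m := ⟨-1, j, by linarith⟩
    exact ((c5.mul_right c6).mul_right c5).of_isCoprime_of_dvd_right
      ⟨c * (G - 1), by rw [eF]; linear_combination (G - 1) ^ 2 * c * D ^ 2 * -hG⟩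
  obtain ⟨h1, h2⟩ := cmb_sound h
  obtain ⟨s1, s2⟩ := h2 (mul_ne_zero (mul_ne_zero G0 (pow_ne_zero 2 D0)) (by omega))
  have h3 : (G ^ 2 - 1) * D ^ 2 * y ∣ (S ^ 2 - 1) * y + (G ^ 2 - 1) * D ^ 2 * S :=
    dv ((dvd_mul_right _ z).sub h1) (by ring)
  have d1 : y ∣ S := co.dvd_of_dvd_mul_left
    (dv (((dvd_mul_left _ _).trans h3).sub (dvd_mul_left y (S ^ 2 - 1))) (by ring))
  obtain ⟨w, hw⟩ : (G ^ 2 - 1) * D ^ 2 ∣ S ^ 2 - 1 := co.symm.dvd_of_dvd_mul_right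
    (dv (((dvd_mul_right _ _).trans h3).sub (dvd_mul_right _ S)) (by ring))
  refine ⟨s1, fun g2 P0 cP => ?_⟩
  obtain ⟨e, he⟩ := s2
  have s3 : IsSquare (P * w) := isSquare_of_mul (b := (G ^ 2 - 1) * D) (c := e)
    (mul_ne_zero G0 D0) (by rw [sq e, ← he, hw]; ring)
  obtain ⟨b, hb⟩ := sq_or (cP.of_isCoprime_of_dvd_right (hw ▸ dvd_mul_left _ _)) s3 P0
  obtain ⟨t, ht⟩ := s3
  obtain ⟨u, rfl⟩ : IsSquare w := isSquare_of_mul (b := b) (c := t)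
    (by rintro rfl; simp at hb; omega) (by rw [hb, ht, sq])
  obtain ⟨k, hk, hS⟩ := exists_both (A := G) (x := S) (y := D * u) (G2 g2)
    (by linear_combination hw)
  have m0 : 0 < m := sign_of_dvd (k := k) (G2 g2) eG (by rw [hG]; ring) y8
    (Dvd.dvd.trans ⟨(G - 1) * D, by rw [eF]; ring⟩ yF) ym m4 (by
      rcases hS with e | e
      · exact e ▸ d1
      · exact dvd_neg.1 (e ▸ d1))
  have dP : P ∣ ch G k - ch G₀ k := ((dvd_mul_right _ _).trans dG).trans (ch_dvd_sub G₀ G k)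
  obtain ⟨w, hw⟩ : D ∣ ps G₀ k := dv ((dvd_mul_right D u).sub
    ((Dvd.dvd.trans ⟨P * D, by ring⟩ dG).trans (ps_dvd_sub G₀ G k))) (by rw [hk]; ring)
  have p1 := pell G₀ k
  rw [hw] at p1
  refine ⟨?_, ⟨b, by rw [← hb, sq]⟩, ?_⟩
  · by_contra z
    have : 0 < (G₀ + 1) * P * D ^ 2 := by positivity
    nlinarith
  · rcases hS with e | e
    · exact ⟨ch G₀ k, w, dv dP.neg_right (by rw [e]; ring), by linear_combination p1⟩
    · exact ⟨-ch G₀ k, w, dv dP (by rw [e]; ring), by linear_combination p1⟩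

theorem e2_complete {P₁ P D R G₀ X : ℤ} (ev : Even G₀) (oD : Odd D) (g2 : 2 ≤ G₀) (P0 : 0 < P)
    (R0 : 0 < R) (G9 : 9 ∣ G₀ - 1) (D3 : 3 ∣ D) (oX : Odd X) (X3 : 3 ∣ X) (s1 : IsSquare P₁)
    (s2 : IsSquare P) (dD : D ∣ ps G₀ X) :
    ∃ S s z, P ∣ S - ch G₀ X ∧ E2 P₁ P D R G₀ S s z = 0 := by
  unfold E2 E3 E4 E5
  obtain ⟨eG, oF, m4, dG, hF, hm, h8, G2⟩ := facts (P := P) (R := R) ev oD rfl rfl rfl rfl rfl
  have D0 : D ≠ 0 := by rintro rfl; exact absurd oD (by decide)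
  have m0 : 0 < mM G₀ P D R := by
    have : 0 ≤ R - 1 := by omega
    unfold mM; positivity
  generalize mM G₀ P D R = m at *
  generalize (G₀ + 1) * (2 * m - 1) = c at *
  obtain ⟨G, hG⟩ : ∃ G, G = c * m - 1 := ⟨_, rfl⟩
  rw [← hG] at eG oF dG hF hm h8 G2 ⊢
  obtain ⟨F, eF⟩ : ∃ F, F = c * (G - 1) * D := ⟨_, rfl⟩
  rw [← eF] at oF hF hm h8 ⊢
  generalize x0 F P D R m = x at *
  have n9 : 9 ∣ G - 1 := by
    have : (3 : ℤ) ^ 2 ∣ G - G₀ := ((pow_dvd_pow_of_dvd D3 2).mul_left P).trans dG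
    omega
  have GF : G - 1 ∣ F := ⟨c * D, by rw [eF]; ring⟩
  obtain ⟨s, k, ⟨q, hq⟩, d1, d2⟩ := exists_dvd (c := c) (M := P * D) (G2 g2) eG
    (by rw [hG]; ring) oF (n9.trans GF) ⟨(G - 1) * D, by rw [eF]; ring⟩ GF hF hm h8 m0 m4 oX X3
    (mul_ne_zero P0.ne' D0)
  obtain ⟨w, hw⟩ : D ∣ ps G k := dv ((((dvd_mul_left D P).trans d2).add
    ((Dvd.dvd.trans ⟨P * D, by ring⟩ dG).trans (ps_dvd_sub G₀ G X))).add dD) (by ring)
  have p1 := pell G k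
  rw [hw] at p1
  obtain ⟨a, rfl⟩ := s1
  obtain ⟨b, hb⟩ := s2
  refine ⟨ch G k, s, w ^ 2 + q + (a + (1 + (a * a) ^ 2) * (b * (G ^ 2 - 1) * D * w)),
    dv (((dvd_mul_right P D).trans d1).add
      (((dvd_mul_right _ _).trans dG).trans (ch_dvd_sub G₀ G X))) (by ring), ?_⟩
  generalize x + 8 * F * m * s = y at *
  rw [← cmb_complete ((G ^ 2 - 1) * D ^ 2 * y) a (b * (G ^ 2 - 1) * D * w)]
  congr 1
  · linear_combination -y * p1 - (G ^ 2 - 1) * D ^ 2 * hq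
  · rw [hb]; linear_combination b * b * (G ^ 2 - 1) * p1

theorem ps_odd (A : ℤ) {X : ℤ} (h : Odd X) : Odd (ps A X) := by
  obtain ⟨e, rfl⟩ := h
  refine ⟨A * ch A e * ps A e + (A ^ 2 - 1) * ps A e ^ 2, ?_⟩
  rw [show 2 * e + 1 = e + (e + 1) by ring, ps_add, ch_succ, ps_succ]
  linear_combination pell A e

theorem reduction7 : ∃ (U : ℕ → Prop) (c : ℕ → List (ℤ × (Fin 7 → ℕ))), ¬ComputablePred U ∧
    Primrec c ∧ ∀ a, U a ↔ ∃ x : Fin 7 → ℤ, ev (c a) x = 0 := by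
  obtain ⟨U, u, w, p, d, k, κ, hU, hu, hw, k0, h⟩ := system
  obtain ⟨c, h1, h2⟩ := exists_code' (F := fun u w (x : Fin 7 → ℤ) =>
    E0 p d k κ u w (x 0) (x 1) (x 2) (x 3) (x 4) (x 5) (x 6))
    (pf_E0 p d k κ (PF.proj _) (PF.proj _) (PF.proj _) (PF.proj _) (PF.proj _) (PF.proj _)
      (PF.proj _) (PF.proj _) (PF.proj _)) hu hw
  refine ⟨U, c, hU, h1, fun i => ?_⟩
  obtain ⟨g1, g2⟩ := h i
  have e2 := h2 i
  unfold E0 E0' E1 at e2
  unfold L0 L1 L2 L3 at g1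
  unfold Cp at g2
  have n9 := nine k (u i) (w i)
  have a9 : 9 ∣ a0 k (u i) (w i) - 1 := ⟨1 + 2 * k * (u i + w i + 1) ^ 2, by rw [a0]; ring⟩
  have a2 : Even (a0 k (u i) (w i)) := ⟨5 + 9 * k * (u i + w i + 1) ^ 2, by rw [a0]; ring⟩
  have a10 : 10 ≤ a0 k (u i) (w i) := le_add_of_nonneg_right (by positivity)
  generalize a0 k (u i) (w i) = a at *
  have A2 : ∀ v, Even (aA a v) := fun v => a2.mul_right _
  have G2 : ∀ v D, Even (gL a (aA a v) D) := fun v D => a2.add (((A2 v).sub a2).mul_right _)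
  have G3 : ∀ A D, a ≤ A → 2 ≤ gL a A D := fun A D g => by
    have := mul_nonneg (sub_nonneg.2 g) (pl_pos (A := A) (by omega) D).le
    unfold gL; omega
  refine ⟨fun e => ?_, fun ⟨x, e⟩ => ?_⟩
  · obtain ⟨v, h, g, l, X, oX, X3, c1, c2, c3, c4, c5⟩ := g2 e
    have A9 := n9 v
    have oD := ps_odd (aA a v) oX
    obtain ⟨g', rfl⟩ : ∃ g', g = 9 * κ * (u i * h + w i) ^ 2 + 2 * g' := by
      obtain ⟨b, hb⟩ := A2 v
      obtain ⟨j, hj⟩ := oD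
      exact ⟨b * g + 1 - j, by linear_combination -c3 - hj + g * hb⟩
    have dA : ps (aA a v) X ∣ gL a (aA a v) (ps (aA a v) X) - aA a v :=
      ⟨(aA a v - a) * (aA a v ^ 2 - 1) * ps (aA a v) X, by rw [gL, pl]; ring⟩
    obtain ⟨S, s, z, d1, e1⟩ := e2_complete (G2 v _) oD (G3 _ _ c2)
      (pl_pos (A := aA a v) (by omega) _) c5
      (dv (a9.add ((A9.sub a9).mul_right (pl (aA a v) (ps (aA a v) X)))) (by rw [gL]; ring))
      (by have := A9.trans (ps_index (aA a v) X); omega) oX X3 c4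
      ⟨ch (aA a v) X, by rw [pl, ← pell, sq]⟩
      (dv ((dA.trans (ps_dvd_sub _ _ X)).add dvd_rfl) (by ring))
    obtain ⟨y, hy⟩ : pl (aA a v) (ps (aA a v) X) ∣ S - aA a v :=
      dv (d1.add (Dvd.dvd.trans ⟨aA a v - a, by rw [gL]; ring⟩
        (ch_dvd_sub a (gL a (aA a v) (ps (aA a v) X)) X))) (by rw [← c1]; ring)
    refine ⟨![v, h, g', l, y, s, z], (e2 _).symm.trans ?_⟩
    rw [show S = sL (aA a v) (ps (aA a v) X) y by rw [sL]; linarith, ← c3] at e1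
    exact e1
  · rw [← e2] at e
    generalize x 0 = v, x 1 = h, x 2 = g, x 3 = l, x 4 = y, x 5 = s, x 6 = z at e
    have A9 := n9 v
    have eA := A2 v
    have eG := G2 v
    have oD : Odd (9 * κ * (u i * h + w i) ^ 2 + 3 +
        (aA a v - 1) * (9 * κ * (u i * h + w i) ^ 2 + 2 * g)) := by
      obtain ⟨b, hb⟩ := eA
      exact ⟨b * (9 * κ * (u i * h + w i) ^ 2) + 1 + (aA a v - 1) * g, by rw [hb]; ring⟩
    obtain ⟨s1, s2⟩ := e2_sound (eG _) oD e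
    have A0 : aA a v ≠ 0 := by omega
    have P0 : ∀ x, 0 < pl (aA a v) x := fun x => by
      have : 0 ≤ aA a v ^ 2 - 1 := by have := sq_pos_of_ne_zero A0; omega
      unfold pl; positivity
    have co : ∀ x, IsCoprime (aA a v ^ 2 - 1) (pl (aA a v) x) := fun x =>
      cop ⟨x ^ 2, by rw [pl]; ring⟩
    have hQ : IsSquare (qQ a v) := by
      obtain ⟨b, hb⟩ := sq_or ((co _).of_isCoprime_of_dvd_left
        ⟨a ^ 2 - 1, by rw [aA_sq]; ring⟩).symm s1 (P0 _)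
      obtain ⟨t, ht⟩ := s1
      have := P0 (9 * h + 1)
      exact isSquare_of_mul (b := b) (c := t) (by rintro rfl; simp at hb; omega)
        (by rw [hb, ht, sq])
    obtain ⟨j, j1, hj⟩ := aA_index (by omega) hQ
    have A1 : a ≤ aA a v :=
      (le_self_pow₀ (by omega) (by omega)).trans (hj ▸ pow_le_ch (by omega) j)
    refine ?_
    generalize hD : 9 * κ * (u i * h + w i) ^ 2 + 3 +
      (aA a v - 1) * (9 * κ * (u i * h + w i) ^ 2 + 2 * g) = D at s2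
    obtain ⟨R0, ⟨b, hb⟩, S, t, ⟨y', hy⟩, hS⟩ := s2 (G3 _ _ A1) (P0 _) (by
      rw [show sL (aA a v) D y ^ 2 - 1 = aA a v ^ 2 - 1 +
        pl (aA a v) D * (y * (aA a v + sL (aA a v) D y)) by rw [sL]; ring]
      exact (co D).symm.add_mul_left_right _)
    refine g1 v h (9 * κ * (u i * h + w i) ^ 2 + 2 * g) l (y + y') ?_
    rw [hD, show sL (aA a v) D (y + y') = S by rw [sL] at hy ⊢; linarith, hS]
    exact ⟨s1, ⟨b * (gL a (aA a v) D ^ 2 - 1) * D * t, by rw [hb]; ring⟩, dvd_mul_right _ _, R0⟩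

end Pool.Agent.MP_fed7c7_lc.H34
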